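import Mathlib
import Pool.Agent.Hp6.EQ.Main

set_option autoImplicit false

/-!
# The equality problem in the variety `M(n)` is undecidable for `n ≥ 3`

The definitions are in `Pool/Agent/Hp6/EQ/Defs.lean`: `Poly` (noncommutative polynomials without
constant term with rational coefficients, as lists of coefficients and nonempty words), `QuasiId`
(a list of premises and a conclusion), `ev` (values), `Holds`, `InM` (the algebra satisfies all
polynomial identities of the matrix algebra `M_n(F)`), `ValidM` (the quasi-identity holds in all
algebras of the variety `M(n)`).

Idea. A machine with one number, which tests divisibility by fixed numbers and multiplies and
divides by fixed numbers, is simulated by the words `l b^i m_s c^j r`; the relations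
`b m_s = m_s' c`, `m_s c^k = b^k' m_s` move the counters and do not depend on the rest of the word,
the relations `l m_s = l m_s'` and `m_s r = m_s' r` test that a counter is zero. If the machine does
not stop from a configuration, then the word of the configuration is not zero in a quotient of an
algebra of upper triangular matrices of order four, over a commutative ring, whose first and last
diagonal entry are zero. Such matrices satisfy the identities of matrices of order three: the first
and the last index can be identified, if one calculates with dual numbers.
-/

namespace Pool.Agent.Results.MP_79b5eb_lc.MatrixVarieties

open Pool.Agent.Hp6.EQ

universe u

/-- For `n ≥ 3` and every field `F` of characteristic zero the equality problem in the variety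
`M(n)` generated by `M_n(F)` is undecidable: no algorithm decides whether a quasi-identity holds in
all algebras of `M(n)`. There is even a finite list `U` of premises for which no algorithm decides
for which conclusions `f` the quasi-identity `(U, f)` holds in all algebras of `M(n)`: the algebra
which is presented in `M(n)` by the relations `U` has an undecidable word problem. -/
theorem result (F : Type u) [Field F] [CharZero F] (n : ℕ) (hn : 3 ≤ n) :
    (¬ ComputablePred (fun Q : QuasiId => ValidM F n Q)) ∧
    ∃ U : List Poly, ¬ ComputablePred (fun f : Poly => ValidM F n (U, f)) := by
  obtain ⟨U, hU⟩ := undecidableM F hn
  exact ⟨uniform hU, U, hU⟩

end Pool.Agent.Results.MP_79b5eb_lc.MatrixVarieties
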