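import Mathlib
import Pool.Agent.Hp6.EQ.Main

set_option autoImplicit false

/-!
# The equality problem in the variety `S(n)` is undecidable for `n ≥ 6`

The definitions are in `Pool/Agent/Hp6/EQ/Defs.lean`: `Poly` (noncommutative polynomials without
constant term with rational coefficients, as lists of coefficients and nonempty words), `QuasiId`
(a list of premises and a conclusion), `ev` (values), `Holds`, `InS` (the algebra satisfies the
standard identity of degree `n`), `ValidS` (the quasi-identity holds in all algebras of the variety
`S(n)`).

Idea. See `MatrixVarieties.lean`. The words of a machine live in a quotient of an algebra of upper
triangular matrices of order four whose first and last diagonal entry are zero. A product of six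
different matrix units of this kind is zero, so these matrices satisfy the standard identities of
degree at least six.
-/

namespace Pool.Agent.Results.MP_79b5eb_lc.StandardVarieties

open Pool.Agent.Hp6.EQ

universe u

/-- For `n ≥ 6` and every field `F` of characteristic zero the equality problem in the variety
`S(n)` defined by the standard identity of degree `n` is undecidable: no algorithm decides whether a
quasi-identity holds in all algebras of `S(n)`. There is even a finite list `U` of premises for
which no algorithm decides for which conclusions `f` the quasi-identity `(U, f)` holds in all
algebras of `S(n)`: the algebra which is presented in `S(n)` by the relations `U` has an undecidable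
word problem. -/
theorem result (F : Type u) [Field F] [CharZero F] (n : ℕ) (hn : 6 ≤ n) :
    (¬ ComputablePred (fun Q : QuasiId => ValidS F n Q)) ∧
    ∃ U : List Poly, ¬ ComputablePred (fun f : Poly => ValidS F n (U, f)) := by
  obtain ⟨U, hU⟩ := undecidableS F hn
  exact ⟨uniform hU, U, hU⟩

end Pool.Agent.Results.MP_79b5eb_lc.StandardVarieties
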